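import Pool.Agent.P.MP_307ae8_co.Main

/-!
The power set of an `n`-element set cannot be partitioned into fewer than `0.357 n` union-free
families.
-/

namespace Pool.Agent.Results.MP_307ae8_co.LowerBound

/-- No three pairwise distinct members `A`, `B`, `C` of the family satisfy `A ∪ B = C`. -/
def UnionFree {n : ℕ} (F : Set (Finset (Fin n))) : Prop :=
  ∀ A ∈ F, ∀ B ∈ F, ∀ C ∈ F, A ≠ B → A ≠ C → B ≠ C → A ∪ B ≠ C

/-- The power set of an `n`-element set is a disjoint union of `m` union-free families. -/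
def Splits (n m : ℕ) : Prop :=
  ∃ F : Fin m → Set (Finset (Fin n)), (∀ i, UnionFree (F i)) ∧
    (∀ i j, i ≠ j → Disjoint (F i) (F j)) ∧ ⋃ i, F i = Set.univ

/-- The least number of union-free families into which the power set can be partitioned. -/
noncomputable def k (n : ℕ) : ℕ := sInf {m | Splits n m}

theorem result (n : ℕ) : (357 / 1000 : ℝ) * n ≤ k n := by
  have h0 : Splits n (n + 1) := by
    refine ⟨fun i => {A | A.card = i}, fun i A hA B hB C hC _ h1 _ h2 => h1 ?_, fun i j hij => ?_,
      Set.eq_univ_of_forall fun A => Set.mem_iUnion.2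
        ⟨⟨A.card, Nat.lt_succ_of_le (A.card_le_univ.trans_eq (Fintype.card_fin n))⟩, rfl⟩⟩
    · exact Finset.eq_of_subset_of_card_le (h2 ▸ Finset.subset_union_left) (hC.trans hA.symm).le
    · exact Set.disjoint_left.2 fun A h1 h2 => hij (Fin.ext (h1.symm.trans h2))
  obtain ⟨F, h1, -, h2⟩ : Splits n (k n) := Nat.sInf_mem (s := {m | Splits n m}) ⟨_, h0⟩
  choose col hcol using fun A => Set.mem_iUnion.1 (h2.symm ▸ Set.mem_univ A : A ∈ ⋃ i, F i)
  exact Pool.Agent.P.MP_307ae8_co.colour col fun A B C a b =>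
    h1 (col C) A (a ▸ hcol A) B (b ▸ hcol B) C (hcol C)

end Pool.Agent.Results.MP_307ae8_co.LowerBound
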